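import Mathlib
import Pool.Agent.Helper362.HapH

set_option autoImplicit false
open Filter
open scoped Topology

namespace Pool.Agent.Results.MP_2b2a50_an.ApproximableCounterexample

/-- A Banach space over `𝕜`. -/
structure Ban (𝕜 : Type) [RCLike 𝕜] where
  /-- the underlying set -/
  Sp : Type
  [grp : NormedAddCommGroup Sp]
  [nsp : NormedSpace 𝕜 Sp]
  [cmp : CompleteSpace Sp]

attribute [instance] Ban.grp Ban.nsp Ban.cmp

noncomputable section operations

variable {𝕜 : Type} [RCLike 𝕜] {X Y Z : Ban 𝕜}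

/-- The bounded linear operators from `X` to `Y`. -/
abbrev Op {𝕜 : Type} [RCLike 𝕜] (X Y : Ban 𝕜) : Type := X.Sp →L[𝕜] Y.Sp

/-- `T` has finite rank. -/
def FiniteRank (T : Op X Y) : Prop := FiniteDimensional 𝕜 (LinearMap.range (T : X.Sp →ₗ[𝕜] Y.Sp))

/-- the zero operator -/
def zeroOp : Op X Y := 0

/-- the sum of two operators -/
def addOp (S T : Op X Y) : Op X Y := S + T

/-- the difference of two operators -/
def subOp (S T : Op X Y) : Op X Y := S - T

/-- a scalar multiple of an operator -/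
def smulOp (c : 𝕜) (T : Op X Y) : Op X Y := c • T

/-- the composition `R T` -/
def compOp (R : Op Y Z) (T : Op X Y) : Op X Z := R.comp T

/-- the operator norm -/
def opNorm (T : Op X Y) : ℝ := ‖T‖

/-- the norm of a vector -/
def vecNorm (x : X.Sp) : ℝ := ‖x‖

/-- The bounded linear functionals on `X`. -/
abbrev Functional {𝕜 : Type} [RCLike 𝕜] (X : Ban 𝕜) : Type := X.Sp →L[𝕜] 𝕜

/-- the norm of a functional -/
def funNorm (f : Functional X) : ℝ := ‖f‖

/-- the operator `x ↦ f(x) y` -/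
def rankOne (f : Functional X) (y : Y.Sp) : Op X Y := f.smulRight y

end operations

/-- For each pair of Banach spaces `X`, `Y` a set `mem` of bounded operators and a function `nrm`
on operators. -/
structure IdealData (𝕜 : Type) [RCLike 𝕜] where
  /-- the operators of the ideal -/
  mem : ∀ {X Y : Ban 𝕜}, Op X Y → Prop
  /-- the ideal norm -/
  nrm : ∀ {X Y : Ban 𝕜}, Op X Y → ℝ

/-- Each component is a linear subspace. -/
structure IsLinear {𝕜 : Type} [RCLike 𝕜] (A : IdealData 𝕜) : Prop where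
  zero : ∀ X Y : Ban 𝕜, A.mem (zeroOp : Op X Y)
  add : ∀ {X Y : Ban 𝕜} (S T : Op X Y), A.mem S → A.mem T → A.mem (addOp S T)
  smul : ∀ {X Y : Ban 𝕜} (c : 𝕜) (T : Op X Y), A.mem T → A.mem (smulOp c T)

/-- `nrm` is a norm on each component. -/
structure IsNormed {𝕜 : Type} [RCLike 𝕜] (A : IdealData 𝕜) : Prop where
  nonneg : ∀ {X Y : Ban 𝕜} (T : Op X Y), A.mem T → 0 ≤ A.nrm T
  eq_zero_iff : ∀ {X Y : Ban 𝕜} (T : Op X Y), A.mem T → (A.nrm T = 0 ↔ T = zeroOp)
  smul : ∀ {X Y : Ban 𝕜} (c : 𝕜) (T : Op X Y), A.mem T → A.nrm (smulOp c T) = ‖c‖ * A.nrm T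
  add_le : ∀ {X Y : Ban 𝕜} (S T : Op X Y), A.mem S → A.mem T →
    A.nrm (addOp S T) ≤ A.nrm S + A.nrm T

/-- Each component is complete for `nrm`: Cauchy sequences converge. -/
def IsCompl {𝕜 : Type} [RCLike 𝕜] (A : IdealData 𝕜) : Prop :=
  ∀ (X Y : Ban 𝕜) (T : ℕ → Op X Y), (∀ n, A.mem (T n)) →
    (∀ ε : ℝ, 0 < ε → ∃ N, ∀ m, N ≤ m → ∀ n, N ≤ n → A.nrm (subOp (T m) (T n)) < ε) →
    ∃ L : Op X Y, A.mem L ∧ Tendsto (fun n => A.nrm (subOp (T n) L)) atTop (𝓝 0)

/-- The ideal property with its norm inequality. -/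
def HasIdealProperty {𝕜 : Type} [RCLike 𝕜] (A : IdealData 𝕜) : Prop :=
  ∀ (W X Y Z : Ban 𝕜) (S : Op W X) (T : Op X Y) (R : Op Y Z), A.mem T →
    A.mem (compOp R (compOp T S)) ∧
      A.nrm (compOp R (compOp T S)) ≤ opNorm R * A.nrm T * opNorm S

/-- A Banach operator ideal over `𝕜`: to each pair `X, Y` of Banach spaces it assigns a linear
subspace of the bounded operators containing those of finite rank, with a complete
norm `nrm`, such that `nrm (x* ⊗ y) = ‖x*‖ ‖y‖`, and `R T S` lies in the ideal with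
`nrm (R T S) ≤ ‖R‖ nrm T ‖S‖` for `T` in the ideal and bounded `R`, `S`. -/
structure IsBanachOperatorIdeal {𝕜 : Type} [RCLike 𝕜] (A : IdealData 𝕜) : Prop where
  isLinear : IsLinear A
  finiteRank_mem : ∀ {X Y : Ban 𝕜} (T : Op X Y), FiniteRank T → A.mem T
  isNormed : IsNormed A
  isCompl : IsCompl A
  nrm_rank_one : ∀ {X Y : Ban 𝕜} (f : Functional X) (y : Y.Sp),
    A.nrm (rankOne (Y := Y) f y) = funNorm f * vecNorm y
  ideal : HasIdealProperty A

/-- The net `S` of operators on `X` converges to the identity uniformly on compact sets. -/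
def ConvergesOnCompacts {𝕜 : Type} [RCLike 𝕜] {X : Ban 𝕜} {ι : Type} [Preorder ι]
    (S : ι → Op X X) : Prop :=
  ∀ K : Set X.Sp, IsCompact K → ∀ ε : ℝ, 0 < ε → ∀ᶠ α in atTop, ∀ x ∈ K, ‖S α x - x‖ < ε

/-- The net `S` of operators converges pointwise to `T`. -/
def ConvergesPointwise {𝕜 : Type} [RCLike 𝕜] {X Y : Ban 𝕜} {ι : Type} [Preorder ι]
    (S : ι → Op X Y) (T : Op X Y) : Prop :=
  ∀ x : X.Sp, Tendsto (fun α => ‖S α x - T x‖) atTop (𝓝 0)

/-- The `lam`-bounded approximation property of `X` for the ideal `A`: for every Banach space `Y`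
and every `T` in `A(X, Y)` there is a net of finite rank operators `S α` on `X` that converges to
the identity uniformly on compact sets, with `limsup ‖T S α‖_A ≤ lam ‖T‖_A`. -/
def BAPFor {𝕜 : Type} [RCLike 𝕜] (A : IdealData 𝕜) (X : Ban 𝕜) (lam : ℝ) : Prop :=
  ∀ (Y : Ban 𝕜) (T : Op X Y), A.mem T →
    ∃ (ι : Type) (_ : Preorder ι) (_ : IsDirected ι (· ≤ ·)) (_ : Nonempty ι)
      (S : ι → Op X X), (∀ α, FiniteRank (S α)) ∧ ConvergesOnCompacts S ∧
      limsup (fun α => ENNReal.ofReal (A.nrm (compOp T (S α)))) atTop ≤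
        ENNReal.ofReal (lam * A.nrm T)

/-- Condition `(P_lam)` of `X` for the ideal `A`: for every Banach space `Y` and every `T` in
`A(X, Y)` there is a net of finite rank operators `X → Y` that converges to `T` pointwise, with
`limsup ‖T α‖_A ≤ lam ‖T‖_A`. -/
def CondP {𝕜 : Type} [RCLike 𝕜] (A : IdealData 𝕜) (X : Ban 𝕜) (lam : ℝ) : Prop :=
  ∀ (Y : Ban 𝕜) (T : Op X Y), A.mem T →
    ∃ (ι : Type) (_ : Preorder ι) (_ : IsDirected ι (· ≤ ·)) (_ : Nonempty ι)
      (S : ι → Op X Y), (∀ α, FiniteRank (S α)) ∧ ConvergesPointwise S T ∧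
      limsup (fun α => ENNReal.ofReal (A.nrm (S α))) atTop ≤ ENNReal.ofReal (lam * A.nrm T)

section construction

variable {𝕜 : Type} [RCLike 𝕜]

/-- the submodule of finite rank operators -/
def finSub (X Y : Ban 𝕜) : Submodule 𝕜 (X.Sp →L[𝕜] Y.Sp) where
  carrier := {T | FiniteRank (X := X) (Y := Y) T}
  add_mem' := by
    intro S T hS hT
    have hS' : FiniteDimensional 𝕜 (LinearMap.range (S : X.Sp →ₗ[𝕜] Y.Sp)) := hS
    have hT' : FiniteDimensional 𝕜 (LinearMap.range (T : X.Sp →ₗ[𝕜] Y.Sp)) := hT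
    have h : LinearMap.range ((S + T : X.Sp →L[𝕜] Y.Sp) : X.Sp →ₗ[𝕜] Y.Sp) ≤
        LinearMap.range (S : X.Sp →ₗ[𝕜] Y.Sp) ⊔ LinearMap.range (T : X.Sp →ₗ[𝕜] Y.Sp) := by
      rintro _ ⟨x, rfl⟩
      exact Submodule.add_mem_sup ⟨x, rfl⟩ ⟨x, rfl⟩
    exact Submodule.finiteDimensional_of_le h
  zero_mem' := by
    have h : LinearMap.range ((0 : X.Sp →L[𝕜] Y.Sp) : X.Sp →ₗ[𝕜] Y.Sp) ≤ ⊥ := by
      rintro _ ⟨x, rfl⟩
      simp
    exact Submodule.finiteDimensional_of_le h
  smul_mem' := by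
    intro c T hT
    have hT' : FiniteDimensional 𝕜 (LinearMap.range (T : X.Sp →ₗ[𝕜] Y.Sp)) := hT
    have h : LinearMap.range ((c • T : X.Sp →L[𝕜] Y.Sp) : X.Sp →ₗ[𝕜] Y.Sp) ≤
        LinearMap.range (T : X.Sp →ₗ[𝕜] Y.Sp) := by
      rintro _ ⟨x, rfl⟩
      exact Submodule.smul_mem _ c ⟨x, rfl⟩
    exact Submodule.finiteDimensional_of_le h

theorem comp_finiteRank {W X Y Z : Ban 𝕜} (S : Op W X) (T : Op X Y) (R : Op Y Z)
    (hT : FiniteRank T) : FiniteRank (compOp R (compOp T S)) := by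
  have hT' : FiniteDimensional 𝕜 (LinearMap.range (T : X.Sp →ₗ[𝕜] Y.Sp)) := hT
  have h : LinearMap.range ((R.comp (T.comp S) : W.Sp →L[𝕜] Z.Sp) : W.Sp →ₗ[𝕜] Z.Sp) ≤
      (LinearMap.range (T : X.Sp →ₗ[𝕜] Y.Sp)).map (R : Y.Sp →ₗ[𝕜] Z.Sp) := by
    rintro _ ⟨x, rfl⟩
    exact ⟨T (S x), ⟨S x, rfl⟩, rfl⟩
  exact Submodule.finiteDimensional_of_le h

/-- The ideal of approximable operators: the operator norm closure of the finite rank ones, with
the operator norm. -/
noncomputable def approximable (𝕜 : Type) [RCLike 𝕜] : IdealData 𝕜 where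
  mem := fun {X Y} T => T ∈ (finSub X Y).topologicalClosure
  nrm := fun T => ‖T‖

theorem approximable_ideal : IsBanachOperatorIdeal (approximable 𝕜) where
  isLinear :=
    { zero := fun X Y => (finSub X Y).topologicalClosure.zero_mem
      add := fun {X Y} S T hS hT => (finSub X Y).topologicalClosure.add_mem hS hT
      smul := fun {X Y} c T hT => (finSub X Y).topologicalClosure.smul_mem c hT }
  finiteRank_mem := fun T hT => Submodule.le_topologicalClosure _ hT
  isNormed :=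
    { nonneg := fun T _ => norm_nonneg T
      eq_zero_iff := fun T _ => norm_eq_zero
      smul := fun c T _ => norm_smul c T
      add_le := fun S T _ _ => norm_add_le S T }
  isCompl := by
    intro X Y T hT hc
    have hcau : CauchySeq T := by
      rw [Metric.cauchySeq_iff]
      intro ε hε
      obtain ⟨N, hN⟩ := hc ε hε
      refine ⟨N, fun m hm n hn => ?_⟩
      rw [dist_eq_norm]
      exact hN m hm n hn
    obtain ⟨L, hL⟩ := cauchySeq_tendsto_of_complete hcau
    refine ⟨L, ?_, ?_⟩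
    · exact (Submodule.isClosed_topologicalClosure (finSub X Y)).mem_of_tendsto hL
        (Eventually.of_forall hT)
    · exact tendsto_iff_norm_sub_tendsto_zero.1 hL
  nrm_rank_one := fun f y => ContinuousLinearMap.norm_smulRight_apply f y
  ideal := by
    intro W X Y Z S T R hT
    refine ⟨?_, ?_⟩
    · have hcont : Continuous (fun T : Op X Y => R.comp (T.comp S)) := by fun_prop
      have hT' : T ∈ closure ((finSub X Y : Submodule 𝕜 (Op X Y)) : Set (Op X Y)) := hT
      have := map_mem_closure hcont hT'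
        (t := ((finSub W Z : Submodule 𝕜 (Op W Z)) : Set (Op W Z)))
        (fun U hU => comp_finiteRank S U R hU)
      exact this
    · calc ‖R.comp (T.comp S)‖ ≤ ‖R‖ * ‖T.comp S‖ := ContinuousLinearMap.opNorm_comp_le _ _
        _ ≤ ‖R‖ * (‖T‖ * ‖S‖) :=
          mul_le_mul_of_nonneg_left (ContinuousLinearMap.opNorm_comp_le _ _) (norm_nonneg _)
        _ = ‖R‖ * ‖T‖ * ‖S‖ := by ring

theorem condP_approximable (X : Ban 𝕜) (lam : ℝ) (hlam : 1 ≤ lam) :
    CondP (approximable 𝕜) X lam := by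
  intro Y T hT
  have hT' : T ∈ closure ((finSub X Y : Submodule 𝕜 (Op X Y)) : Set (Op X Y)) := hT
  obtain ⟨S, hS, hlim⟩ := mem_closure_iff_seq_limit.1 hT'
  refine ⟨ℕ, inferInstance, inferInstance, inferInstance, S, hS, fun x => ?_, ?_⟩
  · have h1 : Tendsto (fun n => S n x) atTop (𝓝 (T x)) :=
      ((ContinuousLinearMap.apply 𝕜 Y.Sp x).continuous.tendsto T).comp hlim
    exact tendsto_iff_norm_sub_tendsto_zero.1 h1
  · have h1 : Tendsto (fun n => ENNReal.ofReal ((approximable 𝕜).nrm (S n))) atTop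
        (𝓝 (ENNReal.ofReal ((approximable 𝕜).nrm T))) :=
      (ENNReal.continuous_ofReal.tendsto _).comp (hlim.norm)
    rw [h1.limsup_eq]
    refine ENNReal.ofReal_le_ofReal ?_
    have h0 : 0 ≤ (approximable 𝕜).nrm T := norm_nonneg T
    nlinarith

end construction

/-- There are a Banach operator ideal `A` (the approximable operators) and, over `ℝ` as over `ℂ`,
a Banach space `X` that satisfies `(P_lam)` for `A` for every `lam ≥ 1`, but does not have the
`lam`-BAP for `A` for any real `lam`. -/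
theorem result (𝕜 : Type) [RCLike 𝕜] :
    ∃ (A : IdealData 𝕜) (X : Ban 𝕜), IsBanachOperatorIdeal A ∧
      (∀ lam : ℝ, 1 ≤ lam → CondP A X lam) ∧ ∀ lam : ℝ, ¬ BAPFor A X lam := by
  refine ⟨approximable 𝕜, ⟨Helper362.Hap.Data.X 𝕜 Helper362.Hap.dat⟩, approximable_ideal,
    fun lam hlam => condP_approximable _ lam hlam, fun lam h => ?_⟩
  refine Helper362.Hap.Data.not_AP 𝕜 Helper362.Hap.dat ?_
  intro K hK ε hε
  obtain ⟨ι, _, _, _, S, hS, hc, -⟩ := h ⟨𝕜⟩ 0 (Submodule.zero_mem _)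
  obtain ⟨α, hα⟩ := (hc K hK ε hε).exists
  exact ⟨S α, hS α, hα⟩

end Pool.Agent.Results.MP_2b2a50_an.ApproximableCounterexample
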